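import Pool.Agent.N574.MH.Mp

/-!
# The flow of `fld φ (b t)` is measure preserving
-/

open Set MeasureTheory Metric Filter Topology
open scoped NNReal ENNReal InnerProductSpace ContDiff

set_option autoImplicit false

namespace N574.MH

open H772R2.NS N979MH

section

variable {Ω : Set E3} {N : ℕ} {φ : Fin N → E3 → E3}

/-- the field `fld φ c` as a linear function of `c` -/
noncomputable def fldL (φ : Fin N → E3 → E3) (x : E3) : (Fin N → ℝ) →L[ℝ] E3 :=
  ∑ k, (ContinuousLinearMap.proj (R := ℝ) (φ := fun _ : Fin N => ℝ) k).smulRight (φ k x)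

lemma fldL_apply (φ : Fin N → E3 → E3) (x : E3) (c : Fin N → ℝ) : fldL φ x c = fld φ c x := by
  simp [fldL, fld]

lemma fld_contDiff (hφ : ∀ k, IsTest Ω (φ k)) (c : Fin N → ℝ) : ContDiff ℝ ∞ (fld φ c) := by
  unfold fld
  exact ContDiff.sum fun k _ => (hφ k).smooth.const_smul (c k)

lemma fld_zero (hφ : ∀ k, IsTest Ω (φ k)) (c : Fin N → ℝ) {x : E3} (hx : x ∉ Ω) : fld φ c x = 0 := by
  unfold fld
  refine Finset.sum_eq_zero fun k _ => ?_
  have : φ k x = 0 := by
    by_contra h
    exact hx ((hφ k).supp (subset_tsupport _ h))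
  rw [this, smul_zero]

/-- constants for the fields -/
lemma exists_consts (hφ : ∀ k, IsTest Ω (φ k)) : ∃ A B : ℝ≥0, ∀ c : Fin N → ℝ,
    LipschitzWith (‖c‖₊ * A) (fld φ c) ∧ ∀ x, ‖fld φ c x‖ ≤ ‖c‖ * B := by
  have h1 : ∀ k, ∃ A : ℝ≥0, LipschitzWith A (φ k) := fun k =>
    (hφ k).smooth.lipschitzWith_of_hasCompactSupport (hφ k).compact (by simp)
  have h2 : ∀ k, ∃ B : ℝ≥0, ∀ x, ‖φ k x‖ ≤ B := fun k => by
    obtain ⟨C, hC⟩ := (hφ k).compact.exists_bound_of_continuous (hφ k).smooth.continuous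
    exact ⟨Real.toNNReal C, fun x => (hC x).trans (Real.le_coe_toNNReal C)⟩
  choose A hA using h1
  choose B hB using h2
  refine ⟨∑ k, A k, ∑ k, B k, fun c => ⟨?_, fun x => ?_⟩⟩
  · refine LipschitzWith.of_dist_le_mul fun x y => ?_
    rw [dist_eq_norm]
    have e : fld φ c x - fld φ c y = ∑ k, c k • (φ k x - φ k y) := by
      simp [fld, smul_sub, Finset.sum_sub_distrib]
    rw [e]
    calc ‖∑ k, c k • (φ k x - φ k y)‖ ≤ ∑ k, ‖c k • (φ k x - φ k y)‖ := norm_sum_le _ _
      _ ≤ ∑ k, ‖c‖ * (A k * dist x y) := by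
          refine Finset.sum_le_sum fun k _ => ?_
          rw [norm_smul]
          refine mul_le_mul (norm_le_pi_norm c k) ?_ (norm_nonneg _) (norm_nonneg _)
          have := (hA k).dist_le_mul x y
          rwa [dist_eq_norm (φ k x)] at this
      _ = _ := by
          push_cast
          rw [← Finset.mul_sum, ← Finset.sum_mul]
          ring
  · calc ‖fld φ c x‖ ≤ ∑ k, ‖c k • φ k x‖ := norm_sum_le _ _
      _ ≤ ∑ k, ‖c‖ * B k := by
          refine Finset.sum_le_sum fun k _ => ?_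
          rw [norm_smul]
          exact mul_le_mul (norm_le_pi_norm c k) (hB k x) (norm_nonneg _) (norm_nonneg _)
      _ = _ := by
          push_cast
          rw [← Finset.mul_sum]

lemma fld_div (hφ : ∀ k, IsTest Ω (φ k)) (c : Fin N → ℝ) (x : E3) :
    ∑ i, fderiv ℝ (fld φ c) x (EuclideanSpace.single i 1) i = 0 := by
  have hd : ∀ k, DifferentiableAt ℝ (φ k) x := fun k =>
    ((hφ k).smooth.differentiable (by simp)).differentiableAt
  have e : fderiv ℝ (fld φ c) x = ∑ k, c k • fderiv ℝ (φ k) x := by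
    have : HasFDerivAt (fld φ c) (∑ k, c k • fderiv ℝ (φ k) x) x := by
      unfold fld
      exact HasFDerivAt.fun_sum fun k _ => (hd k).hasFDerivAt.const_smul (c k)
    exact this.fderiv
  rw [e]
  have h2 : ∀ i : Fin 3, (∑ k, c k • fderiv ℝ (φ k) x) (EuclideanSpace.single i 1) i =
      ∑ k, c k * fderiv ℝ (φ k) x (EuclideanSpace.single i 1) i := by
    intro i
    simp
  simp_rw [h2]
  rw [Finset.sum_comm]
  refine Finset.sum_eq_zero fun k _ => ?_
  rw [← Finset.mul_sum]
  have := (hφ k).divfree x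
  unfold jac at this
  simp only at this
  rw [this, mul_zero]

/-- **The step estimate.** -/
lemma step (hΩ : Bornology.IsBounded Ω) (hφ : ∀ k, IsTest Ω (φ k)) {b : ℝ → Fin N → ℝ}
    (hb : Continuous b) {m : ℝ≥0} (hm : ∀ s, ‖b s‖ ≤ m) {A B : ℝ≥0}
    (hAB : ∀ c : Fin N → ℝ, LipschitzWith (‖c‖₊ * A) (fld φ c) ∧ ∀ x, ‖fld φ c x‖ ≤ ‖c‖ * B)
    {M K : ℝ≥0} (h : Fd (fun t => fld φ (b t)) M K) :
    ∃ C δ : ℝ, 0 ≤ C ∧ 0 < δ ∧ ∀ s s' : ℝ, |s' - s| ≤ δ → ∀ (G : E3 → ℝ) (Lg : ℝ≥0) (Bg : ℝ),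
      LipschitzWith Lg G → (∀ x, |G x| ≤ Bg) → HasCompactSupport G →
      |(∫ x, G (Fl h s s' x)) - ∫ x, G x| ≤ C * (Lg + Bg) * |s' - s| ^ 2 := by
  set V : ℝ := volume.real (closure Ω) with hV
  have hcΩ : IsCompact (closure Ω) := hΩ.isCompact_closure
  have hV0 : 0 ≤ V := measureReal_nonneg
  have hmA : (0 : ℝ) ≤ m * A := by positivity
  refine ⟨V * (K * M + 12 * (m * A) ^ 2), ((m : ℝ) * A + 1)⁻¹ / 2, by positivity, by positivity, ?_⟩
  intro s s' hs G Lg Bg hG hGb hGs
  set η := |s' - s| with hη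
  have hη0 : 0 ≤ η := abs_nonneg _
  have hBg : 0 ≤ Bg := (abs_nonneg _).trans (hGb 0)
  set β : Fin N → ℝ := ∫ τ in s..s', b τ with hβ
  have hβn : ‖β‖ ≤ m * η := intervalIntegral.norm_integral_le_of_norm_le_const fun τ _ => hm τ
  set w : E3 → E3 := fld φ β with hw
  -- the Lipschitz constant
  have hα : ‖β‖ * A ≤ 1 / 2 := by
    have h1 : ‖β‖ * A ≤ (m * A) * η := by
      calc ‖β‖ * A ≤ (m * η) * A := mul_le_mul_of_nonneg_right hβn A.2
        _ = _ := by ring
    have h2 : (m * A) * η ≤ ((m : ℝ) * A) * (((m : ℝ) * A + 1)⁻¹ / 2) := mul_le_mul_of_nonneg_left hs hmA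
    have h3 : ((m : ℝ) * A) * (((m : ℝ) * A + 1)⁻¹ / 2) ≤ 1 / 2 := by
      have h4 : ((m : ℝ) * A + 1) * ((m : ℝ) * A + 1)⁻¹ = 1 := mul_inv_cancel₀ (by positivity)
      have h5 : (0 : ℝ) < ((m : ℝ) * A + 1)⁻¹ := by positivity
      nlinarith
    linarith
  have hwL : LipschitzWith (‖β‖₊ * A) w := (hAB β).1
  have hc : ‖β‖₊ * A < 1 := by
    rw [← NNReal.coe_lt_coe]
    push_cast
    linarith
  have hwd : ContDiff ℝ ∞ w := fld_contDiff hφ β
  have hwdf : Differentiable ℝ w := hwd.differentiable (by simp)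
  have hder : ∀ x, ‖fderiv ℝ w x‖ ≤ (m * A) * η := by
    intro x
    have h1 := norm_fderiv_le_of_lipschitz ℝ hwL (x₀ := x)
    refine h1.trans ?_
    push_cast
    calc ‖β‖ * A ≤ (m * η) * A := mul_le_mul_of_nonneg_right hβn A.2
      _ = _ := by ring
  have hmη : (m * A) * η ≤ 1 := by
    have h2 : (m * A) * η ≤ ((m : ℝ) * A) * (((m : ℝ) * A + 1)⁻¹ / 2) := mul_le_mul_of_nonneg_left hs hmA
    have h4 : ((m : ℝ) * A + 1) * ((m : ℝ) * A + 1)⁻¹ = 1 := mul_inv_cancel₀ (by positivity)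
    have h5 : (0 : ℝ) < ((m : ℝ) * A + 1)⁻¹ := by positivity
    nlinarith
  have hGc := hG.continuous
  have hGi : Integrable G := hGc.integrable_of_hasCompactSupport hGs
  -- outside of `closure Ω`
  have hw0 : ∀ x, x ∉ Ω → w x = 0 := fun x hx => fld_zero hφ β hx
  have hFl0 : ∀ x, x ∉ Ω → Fl h s s' x = x := fun x hx =>
    Fl_const h s s' fun t => fld_zero hφ (b t) hx
  have hdw0 : ∀ x, x ∉ closure Ω → fderiv ℝ w x = 0 := by
    intro x hx
    have h1 : w =ᶠ[𝓝 x] fun _ => 0 := by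
      filter_upwards [isClosed_closure.isOpen_compl.mem_nhds hx] with y hy
      exact hw0 y fun h => hy (subset_closure h)
    rw [h1.fderiv_eq]
    simp
  -- compact support of `G ∘ E` and `G ∘ Fl`
  have hsuppE : HasCompactSupport fun x => G (x + w x) := by
    refine HasCompactSupport.intro (hGs.isCompact.union hcΩ) fun x hx => ?_
    rw [mem_union, not_or] at hx
    rw [hw0 x fun h => hx.2 (subset_closure h), add_zero]
    exact image_eq_zero_of_notMem_tsupport hx.1
  have hsuppF : HasCompactSupport fun x => G (Fl h s s' x) := by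
    refine HasCompactSupport.intro (hGs.isCompact.union hcΩ) fun x hx => ?_
    rw [mem_union, not_or] at hx
    rw [hFl0 x fun h => hx.2 (subset_closure h)]
    exact image_eq_zero_of_notMem_tsupport hx.1
  have hcE : Continuous fun x => G (x + w x) := hGc.comp (continuous_id.add hwd.continuous)
  have hcF : Continuous fun x => G (Fl h s s' x) := hGc.comp (Fl_cont h s s')
  have hiE := hcE.integrable_of_hasCompactSupport hsuppE (μ := (volume : Measure E3))
  have hiF := hcF.integrable_of_hasCompactSupport hsuppF (μ := (volume : Measure E3))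
  have hiJ := cov_int hwL hc hwdf hGi
  -- first difference
  have d1 : ∀ x, ‖Fl h s s' x - (x + w x)‖ ≤ K * M * η ^ 2 := by
    intro x
    obtain ⟨hi, he⟩ := Fl_integral h s s' x
    have hwi : w x = ∫ τ in s..s', fld φ (b τ) x := by
      have h1 := (fldL φ x).intervalIntegral_comp_comm (hb.intervalIntegrable (μ := volume) s s')
      simp_rw [fldL_apply] at h1
      rw [h1]
    have hci : IntervalIntegrable (fun τ => fld φ (b τ) x) volume s s' := by
      have : Continuous fun τ => fldL φ x (b τ) := (fldL φ x).continuous.comp hb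
      simp_rw [fldL_apply] at this
      exact this.intervalIntegrable _ _
    have e : Fl h s s' x - (x + w x) = ∫ τ in s..s', (fld φ (b τ) (Fl h s τ x) - fld φ (b τ) x) := by
      rw [intervalIntegral.integral_sub hi hci, ← he, ← hwi]
      abel
    rw [e]
    have h2 : ∀ τ ∈ uIoc s s', ‖fld φ (b τ) (Fl h s τ x) - fld φ (b τ) x‖ ≤ K * M * η := by
      intro τ hτ
      have h3 := (h.lip τ).dist_le_mul (Fl h s τ x) x
      rw [dist_eq_norm, dist_eq_norm] at h3
      have h4 := Fl_speed h s s τ x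
      rw [Fl_self] at h4
      have h5 : |τ - s| ≤ η := by
        rw [hη]
        rcases le_total s s' with hss | hss
        · rw [uIoc_of_le hss] at hτ
          rw [abs_of_nonneg (by linarith [hτ.1]), abs_of_nonneg (by linarith)]
          linarith [hτ.2]
        · rw [uIoc_of_ge hss] at hτ
          rw [abs_of_nonpos (by linarith [hτ.2]), abs_of_nonpos (by linarith)]
          linarith [hτ.1]
      calc _ ≤ K * ‖Fl h s τ x - x‖ := h3
        _ ≤ K * (M * η) := mul_le_mul_of_nonneg_left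
            (h4.trans (mul_le_mul_of_nonneg_left h5 M.2)) K.2
        _ = _ := by ring
    refine (intervalIntegral.norm_integral_le_of_norm_le_const h2).trans ?_
    rw [← hη]
    exact le_of_eq (by ring)
  have D1 : |(∫ x, G (Fl h s s' x)) - ∫ x, G (x + w x)| ≤ V * (K * M) * Lg * η ^ 2 := by
    rw [← integral_sub hiF hiE]
    have h1 : ∫ x, (G (Fl h s s' x) - G (x + w x)) =
        ∫ x in closure Ω, (G (Fl h s s' x) - G (x + w x)) := by
      refine (setIntegral_eq_integral_of_forall_compl_eq_zero fun x hx => ?_).symm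
      rw [hFl0 x fun h => hx (subset_closure h), hw0 x fun h => hx (subset_closure h), add_zero,
        sub_self]
    rw [h1, ← Real.norm_eq_abs]
    refine (norm_setIntegral_le_of_norm_le_const (C := Lg * (K * M * η ^ 2)) hcΩ.measure_lt_top
      fun x _ => ?_).trans ?_
    · have h3 := hG.dist_le_mul (Fl h s s' x) (x + w x)
      rw [dist_eq_norm, dist_eq_norm] at h3
      exact h3.trans (mul_le_mul_of_nonneg_left (d1 x) Lg.2)
    · rw [← hV]
      exact le_of_eq (by ring)
  -- second difference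
  have D2 : |(∫ x, G (x + w x)) - ∫ x, G x| ≤ V * (12 * (m * A) ^ 2) * Bg * η ^ 2 := by
    rw [← cov hwL hc hwdf G, ← integral_sub hiE hiJ]
    have h1 : ∫ x, (G (x + w x) - |(ContinuousLinearMap.id ℝ E3 + fderiv ℝ w x).det| * G (x + w x)) =
        ∫ x in closure Ω, (G (x + w x) -
          |(ContinuousLinearMap.id ℝ E3 + fderiv ℝ w x).det| * G (x + w x)) := by
      refine (setIntegral_eq_integral_of_forall_compl_eq_zero fun x hx => ?_).symm
      have hdi : (ContinuousLinearMap.id ℝ E3).det = 1 := LinearMap.det_id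
      rw [hdw0 x hx, add_zero, hdi, abs_one, one_mul, sub_self]
    rw [h1, ← Real.norm_eq_abs]
    refine (norm_setIntegral_le_of_norm_le_const (C := (12 * ((m * A) * η) ^ 2) * Bg)
      hcΩ.measure_lt_top fun x _ => ?_).trans ?_
    · have h3 := det_est (fderiv ℝ w x) (hder x) hmη (fld_div hφ β x)
      have h5 : abs (1 - |(ContinuousLinearMap.id ℝ E3 + fderiv ℝ w x).det|) ≤ 12 * ((m * A) * η) ^ 2 := by
        refine le_trans ?_ h3
        have h6 := abs_abs_sub_abs_le (ContinuousLinearMap.id ℝ E3 + fderiv ℝ w x).det 1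
        rw [abs_one] at h6
        rw [abs_sub_comm]
        exact h6
      have e : G (x + w x) - |(ContinuousLinearMap.id ℝ E3 + fderiv ℝ w x).det| * G (x + w x) =
          (1 - |(ContinuousLinearMap.id ℝ E3 + fderiv ℝ w x).det|) * G (x + w x) := by ring
      rw [e, Real.norm_eq_abs, abs_mul]
      exact mul_le_mul h5 (hGb _) (abs_nonneg _) (by positivity)
    · rw [← hV]
      exact le_of_eq (by ring)
  have h9 : |(∫ x, G (Fl h s s' x)) - ∫ x, G x| ≤
      |(∫ x, G (Fl h s s' x)) - ∫ x, G (x + w x)| + |(∫ x, G (x + w x)) - ∫ x, G x| :=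
    abs_sub_le _ _ _
  refine h9.trans ((add_le_add D1 D2).trans ?_)
  have n1 : 0 ≤ V * (K * M) * Bg * η ^ 2 := by positivity
  have n2 : 0 ≤ V * (12 * (m * A) ^ 2) * Lg * η ^ 2 := by positivity
  nlinarith

/-- the integral is preserved -/
lemma int_pres (hΩ : Bornology.IsBounded Ω) (hφ : ∀ k, IsTest Ω (φ k)) {b : ℝ → Fin N → ℝ}
    (hb : Continuous b) {m : ℝ≥0} (hm : ∀ s, ‖b s‖ ≤ m) {A B : ℝ≥0}
    (hAB : ∀ c : Fin N → ℝ, LipschitzWith (‖c‖₊ * A) (fld φ c) ∧ ∀ x, ‖fld φ c x‖ ≤ ‖c‖ * B)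
    {M K : ℝ≥0} (h : Fd (fun t => fld φ (b t)) M K) (s t : ℝ) {g : E3 → ℝ} {L : ℝ≥0}
    (hg : LipschitzWith L g) (hgs : HasCompactSupport g) (hg0 : ∀ x, 0 ≤ g x)
    (hg1 : ∀ x, g x ≤ 1) : ∫ x, g (Fl h s t x) = ∫ x, g x := by
  obtain ⟨C, δ, hC, hδ, hstep⟩ := step hΩ hφ hb hm hAB h
  set Ψ : ℝ → ℝ := fun r => ∫ x, g (Fl h r t x) with hΨ
  have hd : ∀ r, HasDerivAt Ψ 0 r := by
    intro r
    rw [hasDerivAt_iff_isLittleO]
    -- constants near `r`
    set Lr : ℝ≥0 := L * Real.toNNReal (Real.exp (K * (|t - r| + δ))) with hLr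
    have hbound : ∀ r' : ℝ, |r' - r| ≤ δ → |Ψ r' - Ψ r| ≤ C * (Lr + 1) * |r' - r| ^ 2 := by
      intro r' hr'
      -- `G = g ∘ Fl r' t`
      have h1 := hstep r r' hr' (fun x => g (Fl h r' t x)) Lr 1 (by
        have h2 := hg.comp (Fl_lipschitz h r' t)
        refine h2.weaken ?_
        rw [hLr]
        refine mul_le_mul_right ?_ L
        refine Real.toNNReal_le_toNNReal (Real.exp_le_exp.2 ?_)
        refine mul_le_mul_of_nonneg_left ?_ K.2
        have : |t - r'| ≤ |t - r| + |r' - r| := by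
          have e : t - r' = (t - r) - (r' - r) := by ring
          rw [e]
          exact abs_sub _ _
        linarith) (fun x => by
          rw [abs_of_nonneg (hg0 _)]
          exact hg1 _) (hgs.comp_homeomorph (FlH h r' t))
      have e : ∀ x, g (Fl h r' t (Fl h r r' x)) = g (Fl h r t x) := fun x => by rw [Fl_comp]
      simp only [e] at h1
      rw [abs_sub_comm] at h1
      exact h1
    have hO : (fun r' => Ψ r' - Ψ r - (r' - r) • (0 : ℝ)) =O[𝓝 r] fun r' => ‖r' - r‖ ^ 2 := by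
      refine Asymptotics.IsBigO.of_bound (C * (Lr + 1)) ?_
      have : ∀ᶠ r' in 𝓝 r, |r' - r| ≤ δ := by
        have h3 : Continuous fun r' : ℝ => |r' - r| := by fun_prop
        have h4 := h3.tendsto r
        simp only [sub_self, abs_zero] at h4
        exact (h4.eventually (gt_mem_nhds hδ)).mono fun _ h => le_of_lt h
      filter_upwards [this] with r' hr'
      rw [smul_zero, sub_zero, Real.norm_eq_abs]
      refine (hbound r' hr').trans ?_
      rw [Real.norm_eq_abs, Real.norm_eq_abs, abs_of_nonneg (by positivity : 0 ≤ |r' - r| ^ 2)]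
    exact hO.trans_isLittleO (Asymptotics.isLittleO_pow_sub_sub r one_lt_two)
  have hc : Ψ s = Ψ t := is_const_of_deriv_eq_zero (fun r => (hd r).differentiableAt)
    (fun r => (hd r).deriv) s t
  have e : Ψ t = ∫ x, g x := by
    simp only [hΨ, Fl_self]
  rw [← e, ← hc]

end

end N574.MH
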