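import Pool.Agent.N574.MH.Ode
import Pool.Agent.N979.MH.Stm

/-!
# Measure preserving flows
-/

open Set MeasureTheory Metric Filter Topology
open scoped NNReal ENNReal InnerProductSpace ContDiff

set_option autoImplicit false

namespace N574.MH

open H772R2.NS N979MH

/-! ### A criterion -/

lemma vol_le_compact (T : E3 ≃ₜ E3)
    (hT : ∀ g : E3 → ℝ, (∃ L : ℝ≥0, LipschitzWith L g) → HasCompactSupport g → (∀ x, 0 ≤ g x) →
      (∀ x, g x ≤ 1) → ∫ x, g (T x) = ∫ x, g x) {S : Set E3} (hS : IsCompact S) :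
    volume (T ⁻¹' S) ≤ volume S := by
  rcases S.eq_empty_or_nonempty with rfl | hne
  · simp
  have hlim : Tendsto (fun r => volume (cthickening r S)) (𝓝[>] 0) (𝓝 (volume S)) :=
    (tendsto_measure_cthickening_of_isCompact hS).mono_left nhdsWithin_le_nhds
  refine ge_of_tendsto hlim ?_
  filter_upwards [self_mem_nhdsWithin] with δ hδ
  have hδ' : 0 < δ := hδ
  set g : E3 → ℝ := fun x => max 0 (1 - δ⁻¹ * infDist x S) with hg
  have hgL : LipschitzWith (Real.toNNReal δ⁻¹) g := by
    refine LipschitzWith.of_dist_le_mul fun x y => ?_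
    rw [Real.coe_toNNReal _ (by positivity)]
    have h1 : dist (g x) (g y) ≤ |(1 - δ⁻¹ * infDist x S) - (1 - δ⁻¹ * infDist y S)| := by
      rw [hg, Real.dist_eq]
      simp only
      rcases le_total 0 (1 - δ⁻¹ * infDist x S) with ha | ha <;>
      rcases le_total 0 (1 - δ⁻¹ * infDist y S) with hb | hb
      · rw [max_eq_right ha, max_eq_right hb]
      · rw [max_eq_right ha, max_eq_left hb, abs_of_nonneg (by linarith), abs_of_nonneg (by linarith)]
        linarith
      · rw [max_eq_left ha, max_eq_right hb, abs_of_nonpos (by linarith), abs_of_nonpos (by linarith)]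
        linarith
      · rw [max_eq_left ha, max_eq_left hb]
        simp
    refine h1.trans ?_
    have h2 : (1 - δ⁻¹ * infDist x S) - (1 - δ⁻¹ * infDist y S) =
        δ⁻¹ * (infDist y S - infDist x S) := by ring
    rw [h2, abs_mul, abs_of_pos (by positivity : (0:ℝ) < δ⁻¹)]
    refine mul_le_mul_of_nonneg_left ?_ (by positivity)
    have h3 := (lipschitz_infDist_pt S).dist_le_mul y x
    rw [Real.dist_eq] at h3
    simpa [dist_comm] using h3
  have hg0 : ∀ x, 0 ≤ g x := fun x => le_max_left _ _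
  have hg1 : ∀ x, g x ≤ 1 := fun x => by
    refine max_le zero_le_one ?_
    have : 0 ≤ δ⁻¹ * infDist x S := mul_nonneg (by positivity) infDist_nonneg
    linarith
  have hgS : ∀ x ∈ S, g x = 1 := fun x hx => by
    rw [hg]
    simp only
    rw [infDist_zero_of_mem hx]
    simp
  have hgc : ∀ x, x ∉ cthickening δ S → g x = 0 := by
    intro x hx
    rw [hg]
    refine max_eq_left ?_
    have h1 : δ ≤ infDist x S := by
      by_contra h
      push Not at h
      exact hx (thickening_subset_cthickening _ _ ((mem_thickening_iff_infDist_lt hne).2 h))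
    have h2 : δ⁻¹ * δ ≤ δ⁻¹ * infDist x S := mul_le_mul_of_nonneg_left h1 (by positivity)
    rw [inv_mul_cancel₀ hδ'.ne'] at h2
    linarith
  have hgs : HasCompactSupport g := HasCompactSupport.intro hS.cthickening hgc
  have hgi : Integrable g := hgL.continuous.integrable_of_hasCompactSupport hgs
  have hgTi : Integrable fun x => g (T x) :=
    (hgL.continuous.comp T.continuous).integrable_of_hasCompactSupport
      (hgs.comp_homeomorph T)
  calc volume (T ⁻¹' S) = ∫⁻ x, (T ⁻¹' S).indicator 1 x := by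
        rw [lintegral_indicator_one (hS.isClosed.preimage T.continuous).measurableSet]
    _ ≤ ∫⁻ x, ENNReal.ofReal (g (T x)) := by
        refine lintegral_mono fun x => ?_
        by_cases hx : T x ∈ S
        · rw [indicator_of_mem (show x ∈ T ⁻¹' S from hx), hgS _ hx]
          simp
        · rw [indicator_of_notMem (show x ∉ T ⁻¹' S from hx)]
          exact zero_le
    _ = ENNReal.ofReal (∫ x, g (T x)) :=
        (ofReal_integral_eq_lintegral_ofReal hgTi (ae_of_all _ fun x => hg0 _)).symm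
    _ = ENNReal.ofReal (∫ x, g x) := by rw [hT g ⟨_, hgL⟩ hgs hg0 hg1]
    _ = ∫⁻ x, ENNReal.ofReal (g x) :=
        ofReal_integral_eq_lintegral_ofReal hgi (ae_of_all _ fun x => hg0 _)
    _ ≤ ∫⁻ x, (cthickening δ S).indicator 1 x := by
        refine lintegral_mono fun x => ?_
        by_cases hx : x ∈ cthickening δ S
        · rw [indicator_of_mem hx]
          exact ENNReal.ofReal_le_one.2 (hg1 x)
        · rw [indicator_of_notMem hx, hgc x hx]
          simp
    _ = volume (cthickening δ S) := by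
        rw [lintegral_indicator_one isClosed_cthickening.measurableSet]

lemma vol_le (T : E3 ≃ₜ E3)
    (hT : ∀ g : E3 → ℝ, (∃ L : ℝ≥0, LipschitzWith L g) → HasCompactSupport g → (∀ x, 0 ≤ g x) →
      (∀ x, g x ≤ 1) → ∫ x, g (T x) = ∫ x, g x) {S : Set E3} (hS : MeasurableSet S) :
    volume (T ⁻¹' S) ≤ volume S := by
  rw [(hS.preimage T.continuous.measurable).measure_eq_iSup_isCompact]
  refine iSup_le fun Q => iSup_le fun hQ => iSup_le fun hQc => ?_
  have h1 : T ⁻¹' (T '' Q) = Q := T.injective.preimage_image Q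
  calc volume Q = volume (T ⁻¹' (T '' Q)) := by rw [h1]
    _ ≤ volume (T '' Q) := vol_le_compact T hT (hQc.image T.continuous)
    _ ≤ volume S := measure_mono (image_subset_iff.2 hQ)

lemma mp_of (T : E3 ≃ₜ E3)
    (hT : ∀ g : E3 → ℝ, (∃ L : ℝ≥0, LipschitzWith L g) → HasCompactSupport g → (∀ x, 0 ≤ g x) →
      (∀ x, g x ≤ 1) → ∫ x, g (T x) = ∫ x, g x)
    (hT' : ∀ g : E3 → ℝ, (∃ L : ℝ≥0, LipschitzWith L g) → HasCompactSupport g → (∀ x, 0 ≤ g x) →
      (∀ x, g x ≤ 1) → ∫ x, g (T.symm x) = ∫ x, g x) :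
    MeasurePreserving T volume volume := by
  refine ⟨T.continuous.measurable, ?_⟩
  ext S hS
  rw [Measure.map_apply T.continuous.measurable hS]
  refine le_antisymm (vol_le T hT hS) ?_
  have h1 := vol_le T.symm hT' (hS.preimage T.continuous.measurable)
  have h2 : T.symm ⁻¹' (T ⁻¹' S) = S := by
    ext x
    simp
  rwa [h2] at h1

/-! ### The determinant -/

lemma det_est (A : E3 →L[ℝ] E3) {α : ℝ} (hα : ‖A‖ ≤ α) (h1 : α ≤ 1)
    (tr : ∑ i, A (EuclideanSpace.single i 1) i = 0) :
    |(ContinuousLinearMap.id ℝ E3 + A).det - 1| ≤ 12 * α ^ 2 := by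
  have hα0 : 0 ≤ α := (norm_nonneg A).trans hα
  set a : Fin 3 → Fin 3 → ℝ := fun i j => A (EuclideanSpace.single j 1) i with ha
  have hab : ∀ i j, |a i j| ≤ α := by
    intro i j
    have h2 : ‖A (EuclideanSpace.single j (1 : ℝ))‖ ≤ ‖A‖ := by
      have := A.le_opNorm (EuclideanSpace.single j (1 : ℝ))
      simpa using this
    have h3 : ‖A (EuclideanSpace.single j (1 : ℝ)) i‖ ≤ ‖A (EuclideanSpace.single j (1 : ℝ))‖ :=
      PiLp.norm_apply_le _ i
    exact (h3.trans h2).trans hα
  have hdet : (ContinuousLinearMap.id ℝ E3 + A).det =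
      Matrix.det (Matrix.of fun i j => (if i = j then (1 : ℝ) else 0) + a i j) := by
    rw [ContinuousLinearMap.det, ← LinearMap.det_toMatrix (EuclideanSpace.basisFun (Fin 3) ℝ).toBasis]
    congr 1
    ext i j
    rw [LinearMap.toMatrix_apply]
    simp only [OrthonormalBasis.coe_toBasis, EuclideanSpace.basisFun_apply,
      OrthonormalBasis.coe_toBasis_repr_apply, EuclideanSpace.basisFun_repr]
    simp [ha]
  rw [Fin.sum_univ_three] at tr
  have tr' : a 0 0 + a 1 1 + a 2 2 = 0 := tr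
  have e : (ContinuousLinearMap.id ℝ E3 + A).det - 1 =
      a 0 0 * a 1 1 + a 0 0 * a 2 2 + a 1 1 * a 2 2 - a 0 1 * a 1 0 - a 0 2 * a 2 0 - a 1 2 * a 2 1
      + (a 0 0 * a 1 1 * a 2 2 - a 0 0 * a 1 2 * a 2 1 - a 0 1 * a 1 0 * a 2 2
        + a 0 1 * a 1 2 * a 2 0 + a 0 2 * a 1 0 * a 2 1 - a 0 2 * a 1 1 * a 2 0) := by
    rw [hdet, Matrix.det_fin_three]
    simp
    linear_combination tr'
  rw [e]
  have p2 : ∀ i j k l, |a i j * a k l| ≤ α ^ 2 := by
    intro i j k l
    rw [abs_mul, pow_two]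
    exact mul_le_mul (hab _ _) (hab _ _) (abs_nonneg _) hα0
  have p3 : ∀ i j k l m n, |a i j * a k l * a m n| ≤ α ^ 2 := by
    intro i j k l m n
    rw [abs_mul]
    calc |a i j * a k l| * |a m n| ≤ α ^ 2 * 1 :=
          mul_le_mul (p2 _ _ _ _) ((hab _ _).trans h1) (abs_nonneg _) (by positivity)
      _ = _ := mul_one _
  have q1 := abs_le.1 (p2 0 0 1 1)
  have q2 := abs_le.1 (p2 0 0 2 2)
  have q3 := abs_le.1 (p2 1 1 2 2)
  have q4 := abs_le.1 (p2 0 1 1 0)
  have q5 := abs_le.1 (p2 0 2 2 0)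
  have q6 := abs_le.1 (p2 1 2 2 1)
  have r1 := abs_le.1 (p3 0 0 1 1 2 2)
  have r2 := abs_le.1 (p3 0 0 1 2 2 1)
  have r3 := abs_le.1 (p3 0 1 1 0 2 2)
  have r4 := abs_le.1 (p3 0 1 1 2 2 0)
  have r5 := abs_le.1 (p3 0 2 1 0 2 1)
  have r6 := abs_le.1 (p3 0 2 1 1 2 0)
  rw [abs_le]
  constructor
  · linarith [q1.1, q2.1, q3.1, q4.2, q5.2, q6.2, r1.1, r2.2, r3.2, r4.1, r5.1, r6.2]
  · linarith [q1.2, q2.2, q3.2, q4.1, q5.1, q6.1, r1.2, r2.1, r3.1, r4.2, r5.2, r6.1]

/-! ### Change of variables for a perturbation of the identity -/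

lemma pert_bij {w : E3 → E3} {c : ℝ≥0} (hw : LipschitzWith c w) (hc : c < 1) :
    Function.Bijective fun x => x + w x := by
  have ha : ApproximatesLinearOn (fun x => x + w x)
      ((ContinuousLinearEquiv.refl ℝ E3 : E3 ≃L[ℝ] E3) : E3 →L[ℝ] E3) univ c := by
    intro x _ y _
    have e : x + w x - (y + w y) - ((ContinuousLinearEquiv.refl ℝ E3 : E3 ≃L[ℝ] E3) : E3 →L[ℝ] E3)
        (x - y) = w x - w y := by
      simp only [ContinuousLinearEquiv.coe_coe, ContinuousLinearEquiv.refl_apply]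
      abel
    rw [e]
    have := hw.dist_le_mul x y
    rwa [dist_eq_norm, dist_eq_norm] at this
  have hc' : Subsingleton E3 ∨ c < ‖((ContinuousLinearEquiv.refl ℝ E3 : E3 ≃L[ℝ] E3).symm :
      E3 →L[ℝ] E3)‖₊⁻¹ := by
    right
    have e : ‖((ContinuousLinearEquiv.refl ℝ E3 : E3 ≃L[ℝ] E3).symm : E3 →L[ℝ] E3)‖₊ = 1 := by
      have : ((ContinuousLinearEquiv.refl ℝ E3 : E3 ≃L[ℝ] E3).symm : E3 →L[ℝ] E3) =
        ContinuousLinearMap.id ℝ E3 := rfl
      rw [this]
      exact ContinuousLinearMap.nnnorm_id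
    rw [e, inv_one]
    exact hc
  refine ⟨fun x y h => ?_, ha.surjective hc'⟩
  have h1 : (⟨x, mem_univ x⟩ : (univ : Set E3)) = ⟨y, mem_univ y⟩ := (ha.injective hc') h
  exact congrArg Subtype.val h1

lemma cov {w : E3 → E3} {c : ℝ≥0} (hw : LipschitzWith c w) (hc : c < 1)
    (hd : Differentiable ℝ w) (G : E3 → ℝ) :
    ∫ x, |(ContinuousLinearMap.id ℝ E3 + fderiv ℝ w x).det| * G (x + w x) = ∫ x, G x := by
  have hb := pert_bij hw hc
  have h1 := integral_image_eq_integral_abs_det_fderiv_smul (μ := (volume : Measure E3))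
    (s := univ) MeasurableSet.univ
    (f := fun x => x + w x) (f' := fun x => ContinuousLinearMap.id ℝ E3 + fderiv ℝ w x)
    (fun x _ => ((hasFDerivAt_id x).add (hd x).hasFDerivAt).hasFDerivWithinAt)
    hb.injective.injOn G
  rw [image_univ, hb.surjective.range_eq, Measure.restrict_univ] at h1
  exact h1.symm

lemma cov_int {w : E3 → E3} {c : ℝ≥0} (hw : LipschitzWith c w) (hc : c < 1)
    (hd : Differentiable ℝ w) {G : E3 → ℝ} (hG : Integrable G) :
    Integrable fun x => |(ContinuousLinearMap.id ℝ E3 + fderiv ℝ w x).det| * G (x + w x) := by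
  have hb := pert_bij hw hc
  have h1 := integrableOn_image_iff_integrableOn_abs_det_fderiv_smul (volume : Measure E3)
    (s := univ) MeasurableSet.univ
    (f := fun x => x + w x) (f' := fun x => ContinuousLinearMap.id ℝ E3 + fderiv ℝ w x)
    (fun x _ => ((hasFDerivAt_id x).add (hd x).hasFDerivAt).hasFDerivWithinAt)
    hb.injective.injOn G
  rw [image_univ, hb.surjective.range_eq, integrableOn_univ, integrableOn_univ] at h1
  exact h1.1 hG

end N574.MH
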