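import Mathlib

/-!
# Flows of bounded, globally Lipschitz, time dependent fields
-/

open Set MeasureTheory Metric Filter Topology
open scoped NNReal

set_option autoImplicit false

namespace N574.MH

section ode

variable {E : Type} [NormedAddCommGroup E] [NormedSpace ℝ E]

/-- bounded globally Lipschitz time dependent fields -/
structure Fd (v : ℝ → E → E) (M K : ℝ≥0) : Prop where
  lip : ∀ t, LipschitzWith K (v t)
  bdd : ∀ t x, ‖v t x‖ ≤ M
  cont : ∀ x, Continuous fun t => v t x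

variable {v : ℝ → E → E} {M K : ℝ≥0}

/-- global solutions -/
def IsSol (v : ℝ → E → E) (γ : ℝ → E) : Prop := ∀ t, HasDerivAt γ (v t (γ t)) t

lemma exists_Ioo [CompleteSpace E] (h : Fd v M K) (t0 : ℝ) (x : E) (n : ℕ) :
    ∃ γ : ℝ → E, γ t0 = x ∧ ∀ t ∈ Ioo (t0 - ((n:ℝ) + 1)) (t0 + ((n:ℝ) + 1)),
      HasDerivAt γ (v t (γ t)) t := by
  have h0 : t0 ∈ Icc (t0 - ((n:ℝ) + 1)) (t0 + ((n:ℝ) + 1)) := by
    constructor <;> linarith [n.cast_nonneg (α := ℝ)]
  have hpl : IsPicardLindelof v (⟨t0, h0⟩ : Icc (t0 - ((n:ℝ) + 1)) (t0 + ((n:ℝ) + 1))) x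
      (M * (n + 1)) 0 M K := by
    refine ⟨fun t _ => (h.lip t).lipschitzOnWith, fun y _ => (h.cont y).continuousOn,
      fun t _ y _ => h.bdd t y, ?_⟩
    simp
  obtain ⟨γ, h1, h2⟩ := hpl.exists_eq_forall_mem_Icc_hasDerivWithinAt₀
  exact ⟨γ, h1, fun t ht => (h2 t (Ioo_subset_Icc_self ht)).hasDerivAt (Icc_mem_nhds ht.1 ht.2)⟩

lemma exists_sol [CompleteSpace E] (h : Fd v M K) (t0 : ℝ) (x : E) :
    ∃ γ : ℝ → E, γ t0 = x ∧ IsSol v γ := by
  choose γ h0 h1 using exists_Ioo h t0 x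
  have hun : ∀ n k : ℕ, n ≤ k → EqOn (γ n) (γ k) (Ioo (t0 - ((n:ℝ) + 1)) (t0 + ((n:ℝ) + 1))) := by
    intro n k hnk
    have hnk' : (n:ℝ) ≤ k := by exact_mod_cast hnk
    have hn : (0:ℝ) ≤ n := n.cast_nonneg
    refine ODE_solution_unique_of_mem_Ioo (v := v) (s := fun _ => univ) (K := K) (t₀ := t0)
      (fun t _ => (h.lip t).lipschitzOnWith) ⟨by linarith, by linarith⟩
      (fun t ht => ⟨h1 n t ht, trivial⟩) (fun t ht => ⟨h1 k t ⟨?_, ?_⟩, trivial⟩) ?_
    · linarith [ht.1]
    · linarith [ht.2]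
    · rw [h0, h0]
  refine ⟨fun t => γ ⌈|t - t0|⌉₊ t, ?_, ?_⟩
  · simp only; rw [h0]
  · intro t
    set N : ℕ := ⌈|t - t0|⌉₊ + 1 with hN
    have hval : ∀ s : ℝ, |s - t0| < |t - t0| + 1 → γ ⌈|s - t0|⌉₊ s = γ N s := by
      intro s hs
      have h2 : ⌈|s - t0|⌉₊ ≤ N := by
        have h3 : |s - t0| ≤ ((⌈|t - t0|⌉₊ + 1 : ℕ) : ℝ) := by
          push_cast
          linarith [Nat.le_ceil |t - t0|]
        exact Nat.ceil_le.2 h3
      refine hun _ _ h2 ?_
      have h3 := Nat.le_ceil |s - t0|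
      have h4 := abs_lt.1 (by linarith : |s - t0| < (⌈|s - t0|⌉₊:ℝ) + 1)
      constructor <;> linarith [h4.1, h4.2]
    have h3 : HasDerivAt (γ N) (v t (γ N t)) t := by
      apply h1
      have h4 := Nat.le_ceil |t - t0|
      have h5 : |t - t0| < (N : ℝ) + 1 := by
        rw [hN]; push_cast
        linarith
      have h6 := abs_lt.1 h5
      constructor <;> linarith [h6.1, h6.2]
    have h4 : (fun s => γ ⌈|s - t0|⌉₊ s) =ᶠ[𝓝 t] γ N := by
      have hcont : Continuous fun s : ℝ => |s - t0| := by fun_prop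
      have : ∀ᶠ s in 𝓝 t, |s - t0| < |t - t0| + 1 :=
        (hcont.tendsto t).eventually (gt_mem_nhds (by linarith))
      exact this.mono hval
    change HasDerivAt _ (v t (γ ⌈|t - t0|⌉₊ t)) t
    rw [hval t (by linarith)]
    exact h3.congr_of_eventuallyEq h4

lemma IsSol.continuous {γ : ℝ → E} (hγ : IsSol v γ) : Continuous γ :=
  continuous_iff_continuousAt.2 fun t => (hγ t).continuousAt

/-- Gronwall, forwards -/
lemma IsSol.dist_le_aux (h : Fd v M K) {γ η : ℝ → E} (hγ : IsSol v γ) (hη : IsSol v η) {s t : ℝ}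
    (hst : s ≤ t) : dist (γ t) (η t) ≤ dist (γ s) (η s) * Real.exp (K * (t - s)) :=
  dist_le_of_trajectories_ODE h.lip hγ.continuous.continuousOn
    (fun t _ => (hγ t).hasDerivWithinAt) hη.continuous.continuousOn
    (fun t _ => (hη t).hasDerivWithinAt) le_rfl t ⟨hst, le_rfl⟩

/-- Gronwall -/
lemma IsSol.dist_le (h : Fd v M K) {γ η : ℝ → E} (hγ : IsSol v γ) (hη : IsSol v η) (s t : ℝ) :
    dist (γ t) (η t) ≤ dist (γ s) (η s) * Real.exp (K * |t - s|) := by
  rcases le_total s t with hst | hst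
  · rw [abs_of_nonneg (sub_nonneg.2 hst)]
    exact hγ.dist_le_aux h hη hst
  · have h' : Fd (fun τ x => -v (-τ) x) M K := by
      refine ⟨fun τ => (h.lip (-τ)).neg, fun τ x => by rw [norm_neg]; exact h.bdd _ _,
        fun x => ((h.cont x).comp continuous_neg).neg⟩
    have key : ∀ {γ : ℝ → E}, IsSol v γ → IsSol (fun τ x => -v (-τ) x) (fun τ => γ (-τ)) := by
      intro γ hγ τ
      have := (hγ (-τ)).scomp τ (hasDerivAt_neg τ)
      rw [neg_one_smul] at this
      exact this
    have := (key hγ).dist_le_aux h' (key hη) (s := -s) (t := -t) (by linarith)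
    simp only [neg_neg] at this
    rw [abs_of_nonpos (sub_nonpos.2 hst)]
    have e : -t - -s = -(t - s) := by ring
    rwa [e] at this

/-- speed -/
lemma IsSol.norm_sub_le (h : Fd v M K) {γ : ℝ → E} (hγ : IsSol v γ) (s t : ℝ) :
    ‖γ t - γ s‖ ≤ M * |t - s| := by
  have := Convex.norm_image_sub_le_of_norm_hasDerivWithin_le (f := γ) (f' := fun t => v t (γ t))
    (C := M) (s := univ) (fun x _ => (hγ x).hasDerivWithinAt) (fun x _ => h.bdd _ _) convex_univ
    (mem_univ s) (mem_univ t)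
  simpa using this

variable [CompleteSpace E]

/-- the flow from time `s` to time `t` -/
noncomputable def Fl (h : Fd v M K) (s t : ℝ) (x : E) : E := (exists_sol h s x).choose t

lemma Fl_self (h : Fd v M K) (s : ℝ) (x : E) : Fl h s s x = x := (exists_sol h s x).choose_spec.1

lemma Fl_sol (h : Fd v M K) (s : ℝ) (x : E) : IsSol v fun t => Fl h s t x :=
  (exists_sol h s x).choose_spec.2

lemma Fl_unique (h : Fd v M K) {γ : ℝ → E} (hγ : IsSol v γ) (s t : ℝ) :
    Fl h s t (γ s) = γ t := by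
  have h1 := (Fl_sol h s (γ s)).dist_le h hγ s t
  rw [Fl_self, dist_self, zero_mul] at h1
  exact dist_le_zero.1 h1

lemma Fl_comp (h : Fd v M K) (r s t : ℝ) (x : E) : Fl h s t (Fl h r s x) = Fl h r t x :=
  Fl_unique h (Fl_sol h r x) s t

lemma Fl_inv (h : Fd v M K) (s t : ℝ) (x : E) : Fl h t s (Fl h s t x) = x := by
  rw [Fl_comp, Fl_self]

lemma Fl_lip (h : Fd v M K) (s t : ℝ) (x y : E) :
    dist (Fl h s t x) (Fl h s t y) ≤ dist x y * Real.exp (K * |t - s|) := by
  have h1 := (Fl_sol h s x).dist_le h (Fl_sol h s y) s t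
  rwa [Fl_self, Fl_self] at h1

lemma Fl_speed (h : Fd v M K) (s t t' : ℝ) (x : E) :
    ‖Fl h s t' x - Fl h s t x‖ ≤ M * |t' - t| := (Fl_sol h s x).norm_sub_le h t t'

lemma Fl_const (h : Fd v M K) (s t : ℝ) {x : E} (hx : ∀ t, v t x = 0) : Fl h s t x = x := by
  have hγ : IsSol v fun _ => x := fun t => by
    rw [hx t]
    exact hasDerivAt_const t x
  exact Fl_unique h hγ s t

lemma Fl_lipschitz (h : Fd v M K) (s t : ℝ) :
    LipschitzWith (Real.toNNReal (Real.exp (K * |t - s|))) (Fl h s t) := by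
  refine LipschitzWith.of_dist_le_mul fun x y => ?_
  rw [Real.coe_toNNReal _ (Real.exp_nonneg _), mul_comm]
  exact Fl_lip h s t x y

lemma Fl_cont (h : Fd v M K) (s t : ℝ) : Continuous (Fl h s t) := (Fl_lipschitz h s t).continuous

/-- joint continuity, final time -/
lemma Fl_cont₁ (h : Fd v M K) (s : ℝ) : Continuous fun p : ℝ × E => Fl h s p.1 p.2 := by
  rw [continuous_iff_continuousAt]
  rintro ⟨t, x⟩
  rw [ContinuousAt, tendsto_iff_dist_tendsto_zero]
  have hlim : Tendsto (fun p : ℝ × E => dist p.2 x * Real.exp (K * |p.1 - s|) + M * |p.1 - t|)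
      (𝓝 (t, x)) (𝓝 0) := by
    have hc : Continuous fun p : ℝ × E =>
        dist p.2 x * Real.exp (K * |p.1 - s|) + M * |p.1 - t| := by fun_prop
    have := hc.tendsto (t, x)
    simpa using this
  refine squeeze_zero (fun _ => dist_nonneg) (fun p => ?_) hlim
  calc dist (Fl h s p.1 p.2) (Fl h s t x) ≤ dist (Fl h s p.1 p.2) (Fl h s p.1 x) +
      dist (Fl h s p.1 x) (Fl h s t x) := dist_triangle _ _ _
    _ ≤ _ := add_le_add (Fl_lip h s p.1 p.2 x) (by rw [dist_eq_norm]; exact Fl_speed h s t p.1 x)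

/-- joint continuity, initial time -/
lemma Fl_cont₂ (h : Fd v M K) (t0 : ℝ) : Continuous fun p : ℝ × E => Fl h p.1 t0 p.2 := by
  rw [continuous_iff_continuousAt]
  rintro ⟨t, x⟩
  rw [ContinuousAt, tendsto_iff_dist_tendsto_zero]
  have hlim : Tendsto (fun p : ℝ × E => (dist p.2 x + M * |p.1 - t|) * Real.exp (K * |t0 - p.1|))
      (𝓝 (t, x)) (𝓝 0) := by
    have hc : Continuous fun p : ℝ × E =>
        (dist p.2 x + M * |p.1 - t|) * Real.exp (K * |t0 - p.1|) := by fun_prop
    have := hc.tendsto (t, x)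
    simpa using this
  refine squeeze_zero (fun _ => dist_nonneg) (fun p => ?_) hlim
  have e : Fl h t t0 x = Fl h p.1 t0 (Fl h t p.1 x) := (Fl_comp h t p.1 t0 x).symm
  rw [e]
  refine (Fl_lip h p.1 t0 p.2 _).trans (mul_le_mul_of_nonneg_right ?_ (Real.exp_nonneg _))
  calc dist p.2 (Fl h t p.1 x) ≤ dist p.2 x + dist x (Fl h t p.1 x) := dist_triangle _ _ _
    _ ≤ _ := by
      refine add_le_add le_rfl ?_
      have := Fl_speed h t t p.1 x
      rw [Fl_self] at this
      rwa [dist_comm, dist_eq_norm]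

/-- the flow as a homeomorphism -/
noncomputable def FlH (h : Fd v M K) (s t : ℝ) : E ≃ₜ E where
  toFun := Fl h s t
  invFun := Fl h t s
  left_inv := Fl_inv h s t
  right_inv := Fl_inv h t s
  continuous_toFun := Fl_cont h s t
  continuous_invFun := Fl_cont h t s

/-- integral equation -/
lemma Fl_integral (h : Fd v M K) (s t : ℝ) (x : E) :
    IntervalIntegrable (fun τ => v τ (Fl h s τ x)) volume s t ∧
    Fl h s t x - x = ∫ τ in s..t, v τ (Fl h s τ x) := by
  have hc : Continuous fun τ => v τ (Fl h s τ x) := by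
    have hj : Continuous fun p : ℝ × E => v p.1 p.2 := by
      rw [continuous_iff_continuousAt]
      rintro ⟨t, x⟩
      rw [ContinuousAt, tendsto_iff_dist_tendsto_zero]
      have hlim : Tendsto (fun p : ℝ × E => K * dist p.2 x + dist (v p.1 x) (v t x))
          (𝓝 (t, x)) (𝓝 0) := by
        have hc : Continuous fun p : ℝ × E => K * dist p.2 x + dist (v p.1 x) (v t x) := by
          have := (h.cont x).comp (continuous_fst (X := ℝ) (Y := E))
          exact (continuous_const.mul (continuous_snd.dist continuous_const)).add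
            (this.dist continuous_const)
        have := hc.tendsto (t, x)
        simpa using this
      refine squeeze_zero (fun _ => dist_nonneg) (fun p => ?_) hlim
      exact (dist_triangle _ (v p.1 x) _).trans (add_le_add ((h.lip p.1).dist_le_mul _ _) le_rfl)
    exact hj.comp (continuous_id.prodMk (Fl_sol h s x).continuous)
  refine ⟨hc.intervalIntegrable _ _, ?_⟩
  rw [intervalIntegral.integral_eq_sub_of_hasDerivAt (fun τ _ => Fl_sol h s x τ)
    (hc.intervalIntegrable _ _)]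
  rw [Fl_self]

end ode

end N574.MH
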